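import Mathlib

/-!
Simultaneous diagonalisation of a positive definite and a symmetric real matrix.
-/

namespace Pool.Hopf3

open Matrix

private theorem simDiag_spec {n : ℕ} {A : Matrix (Fin n) (Fin n) ℝ} (hA : Aᵀ = A) :
    ∃ (U : Matrix (Fin n) (Fin n) ℝ) (d : Fin n → ℝ), U * Uᵀ = 1 ∧ Uᵀ * U = 1 ∧
      A = U * Matrix.diagonal d * Uᵀ ∧ ∀ i, ∃ v : Fin n → ℝ, v ≠ 0 ∧ A *ᵥ v = d i • v := by
  have hH : A.IsHermitian := by
    unfold Matrix.IsHermitian
    rw [Matrix.conjTranspose_eq_transpose_of_trivial, hA]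
  refine ⟨(hH.eigenvectorUnitary : Matrix (Fin n) (Fin n) ℝ), hH.eigenvalues, ?_, ?_, ?_, ?_⟩
  · have h := Matrix.mem_unitaryGroup_iff.1 hH.eigenvectorUnitary.2
    rwa [Matrix.star_eq_conjTranspose, Matrix.conjTranspose_eq_transpose_of_trivial] at h
  · have h := Matrix.mem_unitaryGroup_iff'.1 hH.eigenvectorUnitary.2
    rwa [Matrix.star_eq_conjTranspose, Matrix.conjTranspose_eq_transpose_of_trivial] at h
  · have h := hH.spectral_theorem
    rw [Unitary.conjStarAlgAut_apply, Matrix.star_eq_conjTranspose,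
      Matrix.conjTranspose_eq_transpose_of_trivial] at h
    exact h
  · intro i
    refine ⟨(hH.eigenvectorBasis i).ofLp, ?_, hH.mulVec_eigenvectorBasis i⟩
    intro h0
    have h1 := hH.eigenvectorBasis.orthonormal.ne_zero i
    exact h1 (by ext j; exact congrFun h0 j)

private theorem simDiag_tr {n : ℕ} (C A : Matrix (Fin n) (Fin n) ℝ) :
    (C * A * Cᵀ)ᵀ = C * Aᵀ * Cᵀ := by
  rw [Matrix.transpose_mul, Matrix.transpose_mul, Matrix.transpose_transpose, Matrix.mul_assoc]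

/-- spectral theorem for real symmetric matrices -/
theorem spec_real {n : ℕ} {A : Matrix (Fin n) (Fin n) ℝ} (hA : Aᵀ = A) :
    ∃ (U : Matrix (Fin n) (Fin n) ℝ) (d : Fin n → ℝ), U * Uᵀ = 1 ∧ Uᵀ * U = 1 ∧
      A = U * Matrix.diagonal d * Uᵀ := by
  obtain ⟨U, d, h1, h2, h3, _⟩ := simDiag_spec hA
  exact ⟨U, d, h1, h2, h3⟩

/-- a positive definite and a symmetric matrix are simultaneously diagonal in a basis -/
theorem simdiag {n : ℕ} {L A : Matrix (Fin n) (Fin n) ℝ} (hL : L.PosDef) (hA : Aᵀ = A) :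
    ∃ (N : Matrix (Fin n) (Fin n) ℝ) (th : Fin n → ℝ), IsUnit N ∧ L = N * Nᵀ ∧
      A = N * Matrix.diagonal th * Nᵀ := by
  have hLt : Lᵀ = L := by
    have h := hL.1
    unfold Matrix.IsHermitian at h
    rwa [Matrix.conjTranspose_eq_transpose_of_trivial] at h
  obtain ⟨U, d, h1, h2, h3, h4⟩ := simDiag_spec hLt
  have hd : ∀ i, 0 < d i := by
    intro i
    obtain ⟨v, hv, hv2⟩ := h4 i
    have h5 := hL.dotProduct_mulVec_pos hv
    rw [hv2] at h5
    have h6 : 0 < v ⬝ᵥ v := by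
      have h7 : 0 ≤ v ⬝ᵥ v := Finset.sum_nonneg fun j _ => mul_self_nonneg (v j)
      rcases h7.lt_or_eq with h8 | h8
      · exact h8
      · exact absurd (dotProduct_self_eq_zero.1 h8.symm) hv
    have h7 : star v ⬝ᵥ d i • v = d i * (v ⬝ᵥ v) := by
      rw [star_trivial, dotProduct_smul, smul_eq_mul]
    rw [h7] at h5
    exact (mul_pos_iff_of_pos_right h6).1 h5
  set s : Fin n → ℝ := fun i => Real.sqrt (d i) with hs
  have hs2 : ∀ i, s i * s i = d i := fun i => Real.mul_self_sqrt (hd i).le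
  have hs0 : ∀ i, s i ≠ 0 := fun i => (Real.sqrt_pos.2 (hd i)).ne'
  set B : Matrix (Fin n) (Fin n) ℝ := U * Matrix.diagonal s with hB
  set C : Matrix (Fin n) (Fin n) ℝ := Matrix.diagonal (fun i => (s i)⁻¹) * Uᵀ with hC
  have hBB : B * Bᵀ = L := by
    rw [hB, Matrix.transpose_mul, Matrix.diagonal_transpose, Matrix.mul_assoc,
      ← Matrix.mul_assoc (Matrix.diagonal s), Matrix.diagonal_mul_diagonal, ← Matrix.mul_assoc]
    simp only [hs2]
    exact h3.symm
  have hCB : C * B = 1 := by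
    rw [hC, hB, Matrix.mul_assoc, ← Matrix.mul_assoc Uᵀ, h2, Matrix.one_mul,
      Matrix.diagonal_mul_diagonal]
    have : (fun i => (s i)⁻¹ * s i) = fun _ => (1 : ℝ) := by
      funext i
      exact inv_mul_cancel₀ (hs0 i)
    rw [this, Matrix.diagonal_one]
  have hBC : B * C = 1 := mul_eq_one_comm.1 hCB
  have hA' : (C * A * Cᵀ)ᵀ = C * A * Cᵀ := by
    rw [simDiag_tr, hA]
  obtain ⟨V, th, g1, g2, g3⟩ := spec_real hA'
  refine ⟨B * V, th, ?_, ?_, ?_⟩
  · have hV : IsUnit V := ⟨⟨V, Vᵀ, g1, g2⟩, rfl⟩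
    have hBu : IsUnit B := ⟨⟨B, C, hBC, hCB⟩, rfl⟩
    exact hBu.mul hV
  · rw [Matrix.transpose_mul, Matrix.mul_assoc, ← Matrix.mul_assoc V, g1, Matrix.one_mul, hBB]
  · have h5 : B * V * Matrix.diagonal th * (B * V)ᵀ = B * (V * Matrix.diagonal th * Vᵀ) * Bᵀ := by
      rw [Matrix.transpose_mul]
      simp only [Matrix.mul_assoc]
    have h6 : Cᵀ * Bᵀ = 1 := by
      rw [← Matrix.transpose_mul, hBC, Matrix.transpose_one]
    rw [h5, ← g3]
    calc A = (B * C) * A * (Cᵀ * Bᵀ) := by rw [hBC, h6, Matrix.one_mul, Matrix.mul_one]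
      _ = B * (C * A * Cᵀ) * Bᵀ := by simp only [Matrix.mul_assoc]

end Pool.Hopf3
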