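import Pool.Agent.Lib.MP_4a593f_gt.E83.R6.SimDiag

/-!
The block `e ∧ v`, `f ∧ v` with a symmetric coupling: real planes only.
-/

namespace Pool.Hopf3

open Matrix

/-- quadratic form of an array -/
private def hbQ {n : ℕ} (A : Fin n → Fin n → ℝ) (v : Fin n → ℝ) : ℝ :=
  ∑ a, ∑ b, A a b * v a * v b

private theorem hb_entry {n : ℕ} (N : Matrix (Fin n) (Fin n) ℝ) (t : Fin n → ℝ) (a b : Fin n) :
    (N * Matrix.diagonal t * Nᵀ) a b = ∑ k, t k * (N a k * N b k) := by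
  rw [Matrix.mul_apply]
  refine Finset.sum_congr rfl fun k _ => ?_
  rw [Matrix.mul_diagonal, Matrix.transpose_apply]
  ring

private theorem hb_pair {n : ℕ} (N : Matrix (Fin n) (Fin n) ℝ) (t : Fin n → ℝ)
    (E : Fin n → Fin n → ℝ) :
    ∑ a, ∑ b, (N * Matrix.diagonal t * Nᵀ) a b * E a b = ∑ k, t k * hbQ E (fun a => N a k) := by
  simp only [hb_entry, hbQ, Finset.sum_mul, Finset.mul_sum]
  have h1 : ∀ a, ∑ b, ∑ k, t k * (N a k * N b k) * E a b
      = ∑ k, ∑ b, t k * (N a k * N b k) * E a b := fun a => Finset.sum_comm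
  simp only [h1]
  rw [Finset.sum_comm]
  refine Finset.sum_congr rfl fun k _ => Finset.sum_congr rfl fun a _ =>
    Finset.sum_congr rfl fun b _ => ?_
  ring

private theorem hb_trace {n : ℕ} (N : Matrix (Fin n) (Fin n) ℝ) (t : Fin n → ℝ) :
    (N * Matrix.diagonal t * Nᵀ).trace = ∑ k, t k * ∑ a, N a k * N a k := by
  unfold Matrix.trace
  simp only [Matrix.diag_apply, hb_entry, Finset.mul_sum]
  exact Finset.sum_comm

private theorem hb_sq {n : ℕ} {N : Matrix (Fin n) (Fin n) ℝ} (hN : IsUnit N) (t : Fin n → ℝ) :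
    (N * Matrix.diagonal t * Nᵀ) * (N * Nᵀ)⁻¹ * (N * Matrix.diagonal t * Nᵀ)
      = N * Matrix.diagonal (fun k => t k ^ 2) * Nᵀ := by
  have hd : IsUnit N.det := (Matrix.isUnit_iff_isUnit_det N).1 hN
  have hdt : IsUnit Nᵀ.det := by rw [Matrix.det_transpose]; exact hd
  have h1 : Nᵀ * (Nᵀ)⁻¹ = 1 := Matrix.mul_nonsing_inv _ hdt
  have h2 : N⁻¹ * N = 1 := Matrix.nonsing_inv_mul _ hd
  rw [Matrix.mul_inv_rev]
  calc N * Matrix.diagonal t * Nᵀ * ((Nᵀ)⁻¹ * N⁻¹) * (N * Matrix.diagonal t * Nᵀ)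
      = N * Matrix.diagonal t * (Nᵀ * (Nᵀ)⁻¹) * (N⁻¹ * N) * Matrix.diagonal t * Nᵀ := by
        simp only [Matrix.mul_assoc]
    _ = N * Matrix.diagonal t * Matrix.diagonal t * Nᵀ := by
        rw [h1, h2, Matrix.mul_one, Matrix.mul_one]
    _ = N * Matrix.diagonal (fun k => t k ^ 2) * Nᵀ := by
        rw [Matrix.mul_assoc N, Matrix.diagonal_mul_diagonal]
        congr 3
        funext k
        ring

/-- The `e ∧ v`, `f ∧ v` block. `E`, `G`, `N` are the curvature blocks `R(e,a,e,b)`, `R(f,a,f,b)`,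
`R(e,a,f,b)`. -/
theorem hblock {n : ℕ} {L H : Matrix (Fin n) (Fin n) ℝ} (hL : L.PosDef) (hH : Hᵀ = H)
    {E G N : Fin n → Fin n → ℝ}
    (h0 : ∀ (p q : ℝ) (v : Fin n → ℝ), 0 ≤ p ^ 2 * (∑ a, ∑ b, E a b * v a * v b)
      + 2 * (p * q) * (∑ a, ∑ b, N a b * v a * v b) + q ^ 2 * (∑ a, ∑ b, G a b * v a * v b))
    (h1 : ∀ v : Fin n → ℝ, |2 * ∑ a, ∑ b, N a b * v a * v b| ≤ ∑ a, v a * v a)
    {α β s k : ℝ} (hα : 0 ≤ α) (hβ : 0 ≤ β) (hs0 : 0 ≤ s) (hs1 : s ≤ 1) (hs : s ^ 2 ≤ α * β)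
    (hk : 0 < k) :
    - ((1 - s) * ((k * (H * L⁻¹ * H).trace + L.trace / k) / 2)) ≤
      α * (∑ a, ∑ b, (H * L⁻¹ * H) a b * E a b) + 2 * (∑ a, ∑ b, H a b * N a b)
        + β * (∑ a, ∑ b, L a b * G a b) := by
  obtain ⟨B, t, hB, e1, e2⟩ := simdiag hL hH
  have e3 : H * L⁻¹ * H = B * Matrix.diagonal (fun k => t k ^ 2) * Bᵀ := by
    rw [e1, e2]
    exact hb_sq hB t
  have e4 : L = B * Matrix.diagonal (fun _ => (1 : ℝ)) * Bᵀ := by
    rw [Matrix.diagonal_one, Matrix.mul_one]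
    exact e1
  rw [e3, hb_pair, hb_trace]
  rw [e2, hb_pair]
  rw [e4, hb_pair, hb_trace]
  have key : ∀ j, - ((1 - s) * ((k * (t j ^ 2 * ∑ a, B a j * B a j)
      + (1 * ∑ a, B a j * B a j) / k) / 2)) ≤
      α * (t j ^ 2 * hbQ E (fun a => B a j)) + 2 * (t j * hbQ N (fun a => B a j))
        + β * (1 * hbQ G (fun a => B a j)) := by
    intro j
    set g : Fin n → ℝ := fun a => B a j with hg
    have hgg : ∑ a, B a j * B a j = ∑ a, g a * g a := rfl
    rw [hgg]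
    set S : ℝ := ∑ a, g a * g a with hS
    have hS0 : 0 ≤ S := Finset.sum_nonneg fun a _ => mul_self_nonneg (g a)
    set τ : ℝ := t j
    have hr : Real.sqrt α ^ 2 = α := Real.sq_sqrt hα
    have hr' : Real.sqrt β ^ 2 = β := Real.sq_sqrt hβ
    have hss : s ≤ Real.sqrt α * Real.sqrt β := by
      rw [← Real.sqrt_mul hα]
      exact Real.le_sqrt_of_sq_le hs
    have p1 := h0 (Real.sqrt α * τ) (Real.sqrt β) g
    have p2 := h0 (Real.sqrt α * τ) (-Real.sqrt β) g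
    have p3 := h1 g
    change |2 * hbQ N g| ≤ S at p3
    have q1 : (Real.sqrt α * τ) ^ 2 = α * τ ^ 2 := by rw [mul_pow, hr]
    have q2 : (-Real.sqrt β) ^ 2 = β := by rw [neg_sq, hr']
    rw [q1, hr'] at p1
    rw [q1, q2] at p2
    change 0 ≤ α * τ ^ 2 * hbQ E g + 2 * (Real.sqrt α * τ * Real.sqrt β) * hbQ N g
      + β * hbQ G g at p1
    change 0 ≤ α * τ ^ 2 * hbQ E g + 2 * (Real.sqrt α * τ * -Real.sqrt β) * hbQ N g
      + β * hbQ G g at p2
    set x : ℝ := hbQ N g with hx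
    set c : ℝ := Real.sqrt α * Real.sqrt β with hc
    have hc0 : 0 ≤ c := mul_nonneg (Real.sqrt_nonneg _) (Real.sqrt_nonneg _)
    have p4 : 0 ≤ α * τ ^ 2 * hbQ E g + 2 * (s * (τ * x)) + β * hbQ G g := by
      have a1 : -(c * |τ * x|) ≤ s * (τ * x) := by
        have b1 : s * |τ * x| ≤ c * |τ * x| := mul_le_mul_of_nonneg_right hss (abs_nonneg _)
        have b2 : -(s * |τ * x|) ≤ s * (τ * x) := by
          have := mul_le_mul_of_nonneg_left (neg_abs_le (τ * x)) hs0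
          linarith
        linarith
      rcases le_total 0 (τ * x) with h | h
      · have b3 : |τ * x| = τ * x := abs_of_nonneg h
        rw [b3] at a1
        have : 2 * (Real.sqrt α * τ * -Real.sqrt β) * x = -(2 * (c * (τ * x))) := by
          rw [hc]; ring
        rw [this] at p2
        linarith
      · have b3 : |τ * x| = -(τ * x) := abs_of_nonpos h
        rw [b3] at a1
        have : 2 * (Real.sqrt α * τ * Real.sqrt β) * x = 2 * (c * (τ * x)) := by
          rw [hc]; ring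
        rw [this] at p1
        linarith
    have p5 : - ((k * (τ ^ 2 * S) + S / k) / 2) ≤ 2 * (τ * x) := by
      have a1 : |τ| ≤ (k * τ ^ 2 + 1 / k) / 2 := by
        have b1 : 0 ≤ (k * |τ| - 1) ^ 2 / k := div_nonneg (sq_nonneg _) hk.le
        have b2 : (k * |τ| - 1) ^ 2 / k = k * |τ| ^ 2 - 2 * |τ| + 1 / k := by
          field_simp
          ring
        rw [b2, sq_abs] at b1
        linarith
      have a2 : |2 * (τ * x)| ≤ |τ| * S := by
        have : 2 * (τ * x) = τ * (2 * x) := by ring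
        rw [this, abs_mul]
        exact mul_le_mul_of_nonneg_left p3 (abs_nonneg _)
      have a3 : |τ| * S ≤ (k * τ ^ 2 + 1 / k) / 2 * S := mul_le_mul_of_nonneg_right a1 hS0
      have a4 : (k * τ ^ 2 + 1 / k) / 2 * S = (k * (τ ^ 2 * S) + S / k) / 2 := by
        field_simp
      have a5 := neg_abs_le (2 * (τ * x))
      linarith
    have hs' : 0 ≤ 1 - s := by linarith
    have p6 := mul_le_mul_of_nonneg_left p5 hs'
    have e5 : α * (τ ^ 2 * hbQ E g) + 2 * (τ * x) + β * (1 * hbQ G g)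
        = (α * τ ^ 2 * hbQ E g + 2 * (s * (τ * x)) + β * hbQ G g) + (1 - s) * (2 * (τ * x)) := by
      ring
    rw [e5, one_mul]
    linarith
  have key2 := Finset.sum_le_sum fun j (_ : j ∈ (Finset.univ : Finset (Fin n))) => key j
  simp only [one_mul] at key2 ⊢
  simp only [Finset.sum_add_distrib, Finset.sum_neg_distrib, ← Finset.mul_sum, ← Finset.sum_div]
    at key2
  exact key2

end Pool.Hopf3
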