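import Pool.Agent.Lib.MP_4a593f_gt.E83.R6.HBlockR

/-!
The `e ∧ v`, `f ∧ v` block with the final weights.
-/

namespace Pool.Hopf3

open Finset Matrix

private theorem hbf_opt {X p t c : ℝ} (hp : 0 ≤ p) (ht : 0 < t) (hc : 0 ≤ c)
    (h : ∀ k : ℝ, 0 < k → - (c * ((k * p + t / k) / 2)) ≤ X) :
    - c * Real.sqrt (p * t) ≤ X := by
  rcases hp.eq_or_lt with h0 | h0
  · rw [← h0, zero_mul, Real.sqrt_zero, mul_zero]
    by_contra hX
    push Not at hX
    have h1 : 0 < -X := by linarith
    have h2 := h ((c * t + 1) / (-X)) (div_pos (by positivity) h1)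
    rw [← h0, mul_zero, zero_add] at h2
    have h3 : t / ((c * t + 1) / -X) = t * (-X) / (c * t + 1) := by
      field_simp
    rw [h3] at h2
    have h4 : 0 < c * t + 1 := by positivity
    have h5 : c * (t * (-X) / (c * t + 1) / 2) < -X := by
      have : c * (t * (-X) / (c * t + 1) / 2) = (c * t / (2 * (c * t + 1))) * (-X) := by
        field_simp
      rw [this]
      have h6 : c * t / (2 * (c * t + 1)) < 1 := by
        rw [div_lt_one (by positivity)]
        nlinarith [mul_nonneg hc ht.le]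
      nlinarith
    linarith
  · have h1 : 0 < Real.sqrt (t / p) := Real.sqrt_pos.2 (div_pos ht h0)
    have h2 := h _ h1
    have e1 : Real.sqrt (p * t) = Real.sqrt (t / p) * p := by
      have : p * t = (t / p) * (p * p) := by field_simp
      rw [this, Real.sqrt_mul (div_pos ht h0).le, Real.sqrt_mul_self h0.le]
    have e2 : t / Real.sqrt (t / p) = Real.sqrt (t / p) * p := by
      rw [div_eq_iff h1.ne']
      have := Real.mul_self_sqrt (div_pos ht h0).le
      calc t = (t / p) * p := by field_simp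
        _ = (Real.sqrt (t / p) * Real.sqrt (t / p)) * p := by rw [this]
        _ = Real.sqrt (t / p) * p * Real.sqrt (t / p) := by ring
    rw [e2] at h2
    rw [e1]
    linarith

/-- The `e ∧ v`, `f ∧ v` block: half of the weight `H L⁻¹ H` on `e ∧ v` and `7/9` of the weight `L`
on `f ∧ v`. -/
theorem hblock_fin {R : Fin 8 → Fin 8 → Fin 8 → Fin 8 → ℝ} (hR : IsCurvature R)
    (hs : SecIn R 0 1) {L H : M6} (hL : L.PosDef) (hH : Hᵀ = H) :
    - (1 - Real.sqrt (7 / 18)) * Real.sqrt ((H * L⁻¹ * H).trace * L.trace) ≤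
      (1 / 2) * mdot (H * L⁻¹ * H) (REm R) + (7 / 9) * mdot L (RFm R) + 2 * mdot H (REFm R) := by
  have hs1 : Real.sqrt (7 / 18) ≤ 1 := by
    exact Real.sqrt_le_one.2 (by norm_num)
  have hP : 0 ≤ (H * L⁻¹ * H).trace := by
    have h1 : (L⁻¹).PosSemidef := hL.inv.posSemidef
    have h2 := h1.mul_mul_conjTranspose_same H
    rw [Matrix.conjTranspose_eq_transpose_of_trivial, hH] at h2
    exact h2.trace_nonneg
  have hT : 0 < L.trace := hL.trace_pos
  refine hbf_opt hP hT (by linarith) ?_
  intro k hk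
  have h := hblock_R hR hs hL hH (α := 1 / 2) (β := 7 / 9) (s := Real.sqrt (7 / 18)) (k := k)
    (by norm_num) (by norm_num) (Real.sqrt_nonneg _) hs1
    (by rw [Real.sq_sqrt (by norm_num)]; norm_num) hk
  linarith

end Pool.Hopf3
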