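import Pool.Agent.Lib.MP_4a593f_gt.E83.R6.HBlock
import Pool.Agent.Lib.MP_4a593f_gt.E83.Core
import Pool.Agent.Lib.MP_4a593f_gt.E83.Curv4

/-!
The block `e ∧ v`, `f ∧ v` with a symmetric coupling, for a curvature tensor on `ℝ⁸`.
-/

namespace Pool.Hopf3

open Finset Matrix

private theorem hb_ev4 {R : Fin 8 → Fin 8 → Fin 8 → Fin 8 → ℝ} (i k : Fin 8)
    (v w : Fin 8 → ℝ) : ev4 R (d8 i) v (d8 k) w = ∑ j, ∑ l, R i j k l * v j * w l := by
  unfold ev4 d8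
  rw [Finset.sum_eq_single i]
  · refine Finset.sum_congr rfl fun j _ => ?_
    rw [Finset.sum_eq_single k]
    · refine Finset.sum_congr rfl fun l _ => ?_
      simp
    · intro k' _ hk
      refine Finset.sum_eq_zero fun l _ => ?_
      simp [hk]
    · intro h
      exact absurd (Finset.mem_univ _) h
  · intro i' _ hi
    refine Finset.sum_eq_zero fun j _ => Finset.sum_eq_zero fun k _ => Finset.sum_eq_zero fun l _ => ?_
    simp [hi]
  · intro h
    exact absurd (Finset.mem_univ _) h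

private theorem hb_up (g : Fin 8 → Fin 8 → ℝ) (v : V6) :
    ∑ j, ∑ l, g j l * up v j * up v l = ∑ a, ∑ b, g (i6 a) (i6 b) * v a * v b := by
  simp only [Fin.sum_univ_eight, Fin.sum_univ_six]
  simp [up, i6]

private theorem hb_E (R : Fin 8 → Fin 8 → Fin 8 → Fin 8 → ℝ) (i k : Fin 8) (v : V6) :
    ev4 R (d8 i) (up v) (d8 k) (up v) = ∑ a, ∑ b, R i (i6 a) k (i6 b) * v a * v b := by
  rw [hb_ev4, hb_up (fun j l => R i j k l)]

private theorem hb_dot_up (v : V6) : dotp (up v) (up v) = ∑ a, v a * v a := by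
  unfold dotp
  simp only [Fin.sum_univ_eight, Fin.sum_univ_six]
  simp [up]

private theorem hb_dot_d (i k : Fin 8) : dotp (d8 i) (d8 k) = if k = i then 1 else 0 := by
  unfold dotp d8
  simp

private theorem hb_dot_0 (v : V6) : dotp (d8 0) (up v) = 0 := by
  unfold dotp d8
  simp [up]

private theorem hb_dot_1 (v : V6) : dotp (d8 1) (up v) = 0 := by
  unfold dotp d8
  simp [up]

/-- planes `(p e + q f) ∧ v` have curvature at least 0 -/
theorem hb_nonneg {R : Fin 8 → Fin 8 → Fin 8 → Fin 8 → ℝ} (hR : IsCurvature R)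
    (hs : SecIn R 0 1) (p q : ℝ) (v : V6) :
    0 ≤ p ^ 2 * (∑ a, ∑ b, REm R a b * v a * v b)
      + 2 * (p * q) * (∑ a, ∑ b, REFm R a b * v a * v b)
      + q ^ 2 * (∑ a, ∑ b, RFm R a b * v a * v b) := by
  have h := (hs (p • d8 0 + q • d8 1) (up v)).1
  rw [zero_mul] at h
  simp only [c4_add1, c4_add3, c4_smul1, c4_smul3] at h
  have h2 := c4_pair hR (d8 0) (up v) (d8 1) (up v)
  rw [h2, hb_E, hb_E, hb_E] at h
  have e1 : ∑ a, ∑ b, REm R a b * v a * v b = ∑ a, ∑ b, R 0 (i6 a) 0 (i6 b) * v a * v b := rfl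
  have e2 : ∑ a, ∑ b, RFm R a b * v a * v b = ∑ a, ∑ b, R 1 (i6 a) 1 (i6 b) * v a * v b := rfl
  have e3 : ∑ a, ∑ b, REFm R a b * v a * v b = ∑ a, ∑ b, R 0 (i6 a) 1 (i6 b) * v a * v b := rfl
  rw [e1, e2, e3]
  linarith

/-- planes `(e ± f) ∧ v` -/
theorem hb_coupling {R : Fin 8 → Fin 8 → Fin 8 → Fin 8 → ℝ} (hR : IsCurvature R)
    (hs : SecIn R 0 1) (v : V6) :
    |2 * ∑ a, ∑ b, REFm R a b * v a * v b| ≤ ∑ a, v a * v a := by
  have h1 := hs (d8 0 + d8 1) (up v)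
  have h2 := hs (d8 0 + (-1 : ℝ) • d8 1) (up v)
  have d00 : dotp (d8 0) (d8 0) = 1 := by rw [hb_dot_d]; simp
  have d11 : dotp (d8 1) (d8 1) = 1 := by rw [hb_dot_d]; simp
  have d01 : dotp (d8 0) (d8 1) = 0 := by rw [hb_dot_d]; simp
  have d10 : dotp (d8 1) (d8 0) = 0 := by rw [hb_dot_d]; simp
  have h3 := c4_pair hR (d8 0) (up v) (d8 1) (up v)
  simp only [c4_add1, c4_add3, c4_dotp_add_left, c4_dotp_add_right, hb_dot_0, hb_dot_1, hb_dot_up,
    d00, d11, d01, d10, h3] at h1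
  simp only [c4_add1, c4_add3, c4_smul1, c4_smul3, c4_dotp_add_left, c4_dotp_add_right,
    c4_dotp_smul_left, c4_dotp_smul_right, hb_dot_0, hb_dot_1, hb_dot_up,
    d00, d11, d01, d10, h3] at h2
  have e3 : ∑ a, ∑ b, REFm R a b * v a * v b = ev4 R (d8 0) (up v) (d8 1) (up v) := by
    rw [hb_E]
    rfl
  rw [e3, abs_le]
  constructor
  · linarith [h1.1, h1.2, h2.1, h2.2]
  · linarith [h1.1, h1.2, h2.1, h2.2]

/-- The `e ∧ v`, `f ∧ v` block for a curvature tensor: `α` of the weight `H L⁻¹ H` on `e ∧ v` and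
`β` of the weight `L` on `f ∧ v` pay the fraction `s ≤ √(αβ)` of the coupling `H`. -/
theorem hblock_R {R : Fin 8 → Fin 8 → Fin 8 → Fin 8 → ℝ} (hR : IsCurvature R)
    (hs : SecIn R 0 1) {L H : M6} (hL : L.PosDef) (hH : Hᵀ = H)
    {α β s k : ℝ} (hα : 0 ≤ α) (hβ : 0 ≤ β) (hs0 : 0 ≤ s) (hs1 : s ≤ 1) (hsab : s ^ 2 ≤ α * β)
    (hk : 0 < k) :
    - ((1 - s) * ((k * (H * L⁻¹ * H).trace + L.trace / k) / 2)) ≤
      α * mdot (H * L⁻¹ * H) (REm R) + 2 * mdot H (REFm R) + β * mdot L (RFm R) :=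
  hblock hL hH (hb_nonneg hR hs) (hb_coupling hR hs) hα hβ hs0 hs1 hsab hk

end Pool.Hopf3
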