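import Pool.Agent.Lib.MP_4a593f_gt.E83.R6.YPlane
import Pool.Agent.Lib.MP_4a593f_gt.E83.SimDiag
import Pool.Agent.Lib.MP_4a593f_gt.E83.Core

/-!
The block of the coupling `Y`: sum of the planes of `YPlane.lean`.
-/

namespace Pool.Hopf3

open Finset Matrix

section lin

variable {n : ℕ} (R : Fin n → Fin n → Fin n → Fin n → ℝ)

private def yb_l2 (u w z : Fin n → ℝ) : (Fin n → ℝ) →ₗ[ℝ] ℝ where
  toFun v := ev4 R u v w z
  map_add' x y := c4_add2 R x y u w z
  map_smul' t x := c4_smul2 R t x u w z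

private def yb_l3 (u v z : Fin n → ℝ) : (Fin n → ℝ) →ₗ[ℝ] ℝ where
  toFun w := ev4 R u v w z
  map_add' x y := c4_add3 R x y u v z
  map_smul' t x := c4_smul3 R t x u v z

private def yb_l4 (u v w : Fin n → ℝ) : (Fin n → ℝ) →ₗ[ℝ] ℝ where
  toFun z := ev4 R u v w z
  map_add' x y := c4_add4 R x y u v w
  map_smul' t x := c4_smul4 R t x u v w

/-- the vector with components `v` in the frame `b` -/
def embV {ι : Type} [Fintype ι] (b : ι → Fin n → ℝ) (v : ι → ℝ) : Fin n → ℝ := ∑ i, v i • b i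

theorem ev4_emb24 {ι : Type} [Fintype ι] (b : ι → Fin n → ℝ) (u w : Fin n → ℝ) (v z : ι → ℝ) :
    ev4 R u (embV b v) w (embV b z) = ∑ i, ∑ j, v i * z j * ev4 R u (b i) w (b j) := by
  have h1 : ev4 R u (embV b v) w (embV b z)
      = ∑ i, v i * ev4 R u (b i) w (embV b z) := by
    have := map_sum (yb_l2 R u w (embV b z)) (fun i => v i • b i) Finset.univ
    simp only [map_smul, smul_eq_mul] at this
    exact this
  rw [h1]
  refine Finset.sum_congr rfl fun i _ => ?_
  have h2 : ev4 R u (b i) w (embV b z) = ∑ j, z j * ev4 R u (b i) w (b j) := by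
    have := map_sum (yb_l4 R u (b i) w) (fun j => z j • b j) Finset.univ
    simp only [map_smul, smul_eq_mul] at this
    exact this
  rw [h2, Finset.mul_sum]
  exact Finset.sum_congr rfl fun j _ => by ring

theorem ev4_emb34 {ι : Type} [Fintype ι] (b : ι → Fin n → ℝ) (u w : Fin n → ℝ) (v z : ι → ℝ) :
    ev4 R u w (embV b v) (embV b z) = ∑ i, ∑ j, v i * z j * ev4 R u w (b i) (b j) := by
  have h1 : ev4 R u w (embV b v) (embV b z)
      = ∑ i, v i * ev4 R u w (b i) (embV b z) := by
    have := map_sum (yb_l3 R u w (embV b z)) (fun i => v i • b i) Finset.univ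
    simp only [map_smul, smul_eq_mul] at this
    exact this
  rw [h1]
  refine Finset.sum_congr rfl fun i _ => ?_
  have h2 : ev4 R u w (b i) (embV b z) = ∑ j, z j * ev4 R u w (b i) (b j) := by
    have := map_sum (yb_l4 R u w (b i)) (fun j => z j • b j) Finset.univ
    simp only [map_smul, smul_eq_mul] at this
    exact this
  rw [h2, Finset.mul_sum]
  exact Finset.sum_congr rfl fun j _ => by ring

theorem dotp_emb {ι : Type} [Fintype ι] [DecidableEq ι] {b : ι → Fin n → ℝ}
    (hb : ∀ i j, dotp (b i) (b j) = if i = j then 1 else 0) (v z : ι → ℝ) :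
    dotp (embV b v) (embV b z) = ∑ i, v i * z i := by
  have h1 : dotp (embV b v) (embV b z) = ∑ i, ∑ j, v i * z j * dotp (b i) (b j) := by
    unfold dotp embV
    simp only [Finset.sum_apply, Pi.smul_apply, smul_eq_mul, Finset.sum_mul_sum]
    rw [Finset.sum_comm]
    refine Finset.sum_congr rfl fun i _ => ?_
    rw [Finset.sum_comm]
    refine Finset.sum_congr rfl fun j _ => ?_
    rw [Finset.mul_sum]
    exact Finset.sum_congr rfl fun x _ => by ring
  rw [h1]
  refine Finset.sum_congr rfl fun i _ => ?_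
  simp only [hb, mul_ite, mul_one, mul_zero, Finset.sum_ite_eq, Finset.mem_univ, if_true]

theorem embV_smul {ι : Type} [Fintype ι] (b : ι → Fin n → ℝ) (c : ℝ) (v : ι → ℝ) :
    embV b (fun i => c * v i) = c • embV b v := by
  unfold embV
  rw [Finset.smul_sum]
  exact Finset.sum_congr rfl fun i _ => by rw [smul_smul]

end lin

/-- one index -/
private theorem yb_one {n : ℕ} {R : Fin n → Fin n → Fin n → Fin n → ℝ} (hR : IsCurvature R)
    (hs : SecIn R 0 1) (e f P η : Fin n → ℝ) (hη : 0 < dotp η η) :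
    0 ≤ dotp η η / 2 * ev4 R e f e f + 1 / 2 * ev4 R e P e P
      + 2 / 9 * ev4 R f η f η + 2 / 9 * dotp P P
      - 2 / 3 * ev4 R e f P η - 2 / 3 * ev4 R e P f η := by
  set c : ℝ := Real.sqrt (2 / 9) with hc
  have hc2 : c * c = 2 / 9 := Real.mul_self_sqrt (by norm_num)
  have hc0 : c ≠ 0 := by
    intro h
    rw [h] at hc2
    norm_num at hc2
  set a : ℝ := Real.sqrt (dotp η η / 2) with ha
  have ha2 : a ^ 2 = dotp η η / 2 := Real.sq_sqrt (by positivity)
  have ha0 : a ≠ 0 := (Real.sqrt_pos.2 (by positivity)).ne'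
  have h1 := yplane_pair hR hs e f ((-(1 / (3 * c))) • P) (c • η) ha0
  rw [ha2] at h1
  simp only [c4_smul1, c4_smul2, c4_smul3, c4_smul4] at h1
  have h2 := (hs P η).2
  have h3 : ev4 R P η P η ≤ dotp P P * dotp η η := by
    nlinarith [sq_nonneg (dotp P η)]
  have g1 : -(1 / (3 * c)) * -(1 / (3 * c)) = 1 / 2 := by
    have : -(1 / (3 * c)) * -(1 / (3 * c)) = 1 / (9 * (c * c)) := by
      field_simp
      norm_num
    rw [this, hc2]
    norm_num
  have g2 : -(1 / (3 * c)) * c = -(1 / 3) := by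
    field_simp
  have k1 : -(1 / (3 * c)) * (-(1 / (3 * c)) * ev4 R e P e P) = 1 / 2 * ev4 R e P e P := by
    rw [← mul_assoc, g1]
  have k2 : c * (c * ev4 R f η f η) = 2 / 9 * ev4 R f η f η := by
    rw [← mul_assoc, hc2]
  have k3 : c * (-(1 / (3 * c)) * (c * (-(1 / (3 * c)) * ev4 R P η P η)))
      = 1 / 9 * ev4 R P η P η := by
    have : c * (-(1 / (3 * c)) * (c * (-(1 / (3 * c)) * ev4 R P η P η)))
      = (-(1 / (3 * c)) * c) * (-(1 / (3 * c)) * c) * ev4 R P η P η := by ring
    rw [this, g2]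
    norm_num
  have k4 : c * (-(1 / (3 * c)) * ev4 R e f P η) = -(1 / 3) * ev4 R e f P η := by
    rw [← mul_assoc, mul_comm c, g2]
  have k5 : c * (-(1 / (3 * c)) * ev4 R e P f η) = -(1 / 3) * ev4 R e P f η := by
    rw [← mul_assoc, mul_comm c, g2]
  rw [k1, k2, k3, k4, k5] at h1
  have h4 : (dotp η η / 2)⁻¹ * (1 / 9 * ev4 R P η P η) ≤ 2 / 9 * dotp P P := by
    rw [inv_mul_le_iff₀ (by positivity)]
    nlinarith
  linarith

/-- The block of the coupling `Y`. -/
theorem yblock_gen {n : ℕ} {R : Fin n → Fin n → Fin n → Fin n → ℝ} (hR : IsCurvature R)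
    (hs : SecIn R 0 1) (e f : Fin n → ℝ) {ι : Type} [Fintype ι] [DecidableEq ι]
    {b : ι → Fin n → ℝ} (hb : ∀ i j, dotp (b i) (b j) = if i = j then 1 else 0)
    {L Y : Matrix ι ι ℝ} (hL : L.PosDef) (hY : Yᵀ = -Y) :
    -(2 / 9 * (Yᵀ * L⁻¹ * Y).trace) ≤ L.trace / 2 * ev4 R e f e f
      + 1 / 2 * ∑ i, ∑ j, (Yᵀ * L⁻¹ * Y) i j * ev4 R e (b i) e (b j)
      + 2 / 9 * ∑ i, ∑ j, L i j * ev4 R f (b i) f (b j)
      - ∑ i, ∑ j, Y i j * ev4 R e f (b i) (b j) := by
  obtain ⟨η, θ, hη, -⟩ := exists_simdiag hL (Matrix.isHermitian_zero (n := ι) (α := ℝ))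
  have hLu : IsUnit L := hL.isUnit
  have hLd : IsUnit L.det := (Matrix.isUnit_iff_isUnit_det L).1 hLu
  set W : Matrix ι ι ℝ := fun i k => η k i with hWdef
  have hLW : L = W * Wᵀ := by
    ext i j
    rw [hη, Matrix.mul_apply]
    rfl
  have hWd : IsUnit W.det := by
    have h := hLd
    rw [hLW, Matrix.det_mul] at h
    exact isUnit_of_mul_isUnit_left h
  have hWtd : IsUnit Wᵀ.det := by rw [Matrix.det_transpose]; exact hWd
  -- the dual vectors
  set X : Matrix ι ι ℝ := (Wᵀ)⁻¹ with hX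
  have hXW : X * Wᵀ = 1 := Matrix.nonsing_inv_mul _ hWtd
  have hXtW : Xᵀ * W = 1 := by
    have := congrArg Matrix.transpose (Matrix.mul_nonsing_inv _ hWtd)
    rwa [Matrix.transpose_mul, Matrix.transpose_transpose, Matrix.transpose_one] at this
  have hLinv : L⁻¹ = X * Xᵀ := by
    rw [hLW, Matrix.mul_inv_rev, hX, Matrix.transpose_nonsing_inv, Matrix.transpose_transpose]
  set P : Matrix ι ι ℝ := Y * X with hPdef
  have hYt : Yᵀ * L⁻¹ * Y = P * Pᵀ := by
    rw [hLinv, hPdef, Matrix.transpose_mul, hY]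
    have e1 : -Y * (X * Xᵀ) * Y = -(Y * X * Xᵀ * Y) := by
      simp only [Matrix.neg_mul, Matrix.mul_assoc]
    have e2 : Y * X * (Xᵀ * -Y) = -(Y * X * Xᵀ * Y) := by
      simp only [Matrix.mul_neg, Matrix.mul_assoc]
    rw [e1, e2]
  have hPW : P * Wᵀ = Y := by
    rw [hPdef, Matrix.mul_assoc, hXW, Matrix.mul_one]
  -- the vectors `η` do not vanish
  have hηpos : ∀ k, 0 < ∑ i, η k i * η k i := by
    intro k
    refine lt_of_le_of_ne (Finset.sum_nonneg fun i _ => mul_self_nonneg _) ?_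
    intro h0
    have h1 : ∀ i, η k i = 0 := by
      intro i
      have := (Finset.sum_eq_zero_iff_of_nonneg (fun i _ => mul_self_nonneg (η k i))).1 h0.symm i
        (Finset.mem_univ _)
      exact mul_self_eq_zero.1 this
    have h2 := congrFun (congrFun hXtW k) k
    rw [Matrix.mul_apply, Matrix.one_apply_eq] at h2
    have h3 : ∑ j, Xᵀ k j * W j k = 0 := by
      refine Finset.sum_eq_zero fun j _ => ?_
      simp only [hWdef, h1, mul_zero]
    rw [h3] at h2
    exact zero_ne_one h2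
  -- traces
  have htrL : ∑ k, ∑ i, η k i * η k i = L.trace := by
    rw [Matrix.trace, Finset.sum_comm]
    refine Finset.sum_congr rfl fun i _ => ?_
    rw [Matrix.diag_apply, hη]
  have htrP : ∑ k, ∑ i, P i k * P i k = (Yᵀ * L⁻¹ * Y).trace := by
    rw [hYt, Matrix.trace, Finset.sum_comm]
    refine Finset.sum_congr rfl fun i _ => ?_
    rw [Matrix.diag_apply, Matrix.mul_apply]
    rfl
  -- expansion of the curvature sums
  have hsum : ∀ (A B : Matrix ι ι ℝ) (u w : Fin n → ℝ),
      ∑ k, ev4 R u (embV b (fun i => A i k)) w (embV b (fun i => B i k))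
        = ∑ i, ∑ j, (A * Bᵀ) i j * ev4 R u (b i) w (b j) := by
    intro A B u w
    simp only [ev4_emb24]
    rw [Finset.sum_comm]
    refine Finset.sum_congr rfl fun i _ => ?_
    rw [Finset.sum_comm]
    refine Finset.sum_congr rfl fun j _ => ?_
    rw [Matrix.mul_apply, Finset.sum_mul]
    rfl
  have hsum' : ∀ (A B : Matrix ι ι ℝ) (u w : Fin n → ℝ),
      ∑ k, ev4 R u w (embV b (fun i => A i k)) (embV b (fun i => B i k))
        = ∑ i, ∑ j, (A * Bᵀ) i j * ev4 R u w (b i) (b j) := by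
    intro A B u w
    simp only [ev4_emb34]
    rw [Finset.sum_comm]
    refine Finset.sum_congr rfl fun i _ => ?_
    rw [Finset.sum_comm]
    refine Finset.sum_congr rfl fun j _ => ?_
    rw [Matrix.mul_apply, Finset.sum_mul]
    rfl
  have hE := hsum P P e e
  have hF := hsum W W f f
  have hC1 := hsum' P W e f
  have hC2 := hsum P W e f
  rw [← hYt] at hE
  rw [← hLW] at hF
  rw [hPW] at hC1 hC2
  -- the Bianchi identity
  have hBi : ∑ i, ∑ j, Y i j * ev4 R e (b i) f (b j)
      = 1 / 2 * ∑ i, ∑ j, Y i j * ev4 R e f (b i) (b j) := by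
    have hsk : ∀ i j, Y j i = - Y i j := by
      intro i j
      have := congrFun (congrFun hY i) j
      simpa [Matrix.transpose_apply] using this
    have h1 : ∑ i, ∑ j, Y i j * ev4 R e (b i) f (b j)
        = - ∑ i, ∑ j, Y i j * ev4 R e (b j) f (b i) := by
      rw [Finset.sum_comm, ← Finset.sum_neg_distrib]
      refine Finset.sum_congr rfl fun i _ => ?_
      rw [← Finset.sum_neg_distrib]
      refine Finset.sum_congr rfl fun j _ => ?_
      rw [hsk i j]
      ring
    have h2 : ∀ i j, ev4 R e (b i) f (b j) - ev4 R e (b j) f (b i) = ev4 R e f (b i) (b j) := by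
      intro i j
      have hb1 := c4_bianchi hR (b i) f (b j) e
      have a1 : ev4 R (b i) f (b j) e = ev4 R e (b j) f (b i) := by
        rw [← c4_pair hR, c4_skew12 hR e (b j), c4_skew34 hR]
        have := c4_skew34 hR e (b j) f (b i)
        linarith
      have a2 : ev4 R f (b j) (b i) e = - ev4 R e (b i) f (b j) := by
        rw [← c4_pair hR, c4_skew12 hR e (b i)]
      have a3 : ev4 R (b j) (b i) f e = ev4 R e f (b i) (b j) := by
        rw [← c4_pair hR, c4_skew12 hR e f, c4_skew34 hR]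
        ring
      linarith
    have h3 : ∑ i, ∑ j, Y i j * ev4 R e f (b i) (b j)
        = ∑ i, ∑ j, Y i j * ev4 R e (b i) f (b j) - ∑ i, ∑ j, Y i j * ev4 R e (b j) f (b i) := by
      rw [← Finset.sum_sub_distrib]
      refine Finset.sum_congr rfl fun i _ => ?_
      rw [← Finset.sum_sub_distrib]
      refine Finset.sum_congr rfl fun j _ => ?_
      rw [← h2 i j]
      ring
    linarith
  -- the sum
  have hone : ∀ k, 0 ≤ (∑ i, η k i * η k i) / 2 * ev4 R e f e f
      + 1 / 2 * ev4 R e (embV b fun i => P i k) e (embV b fun i => P i k)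
      + 2 / 9 * ev4 R f (embV b fun i => W i k) f (embV b fun i => W i k)
      + 2 / 9 * ∑ i, P i k * P i k
      - 2 / 3 * ev4 R e f (embV b fun i => P i k) (embV b fun i => W i k)
      - 2 / 3 * ev4 R e (embV b fun i => P i k) f (embV b fun i => W i k) := by
    intro k
    have hd : dotp (embV b fun i => W i k) (embV b fun i => W i k) = ∑ i, η k i * η k i :=
      dotp_emb hb _ _
    have hp : dotp (embV b fun i => P i k) (embV b fun i => P i k) = ∑ i, P i k * P i k :=
      dotp_emb hb _ _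
    have h := yb_one hR hs e f (embV b fun i => P i k) (embV b fun i => W i k)
      (by rw [hd]; exact hηpos k)
    rw [hd, hp] at h
    exact h
  have htot := Finset.sum_nonneg fun k (_ : k ∈ Finset.univ) => hone k
  simp only [Finset.sum_add_distrib, Finset.sum_sub_distrib, ← Finset.sum_mul,
    ← Finset.mul_sum, ← Finset.sum_div] at htot
  rw [hE, hF, hC1, hC2, hBi, htrL, htrP] at htot
  linarith

theorem ev4_d8 (R : Fin 8 → Fin 8 → Fin 8 → Fin 8 → ℝ) (i j k l : Fin 8) :
    ev4 R (d8 i) (d8 j) (d8 k) (d8 l) = R i j k l := by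
  unfold ev4 d8
  rw [Finset.sum_eq_single i (fun i' _ hi => by simp [hi]) (fun h => by simp at h),
    Finset.sum_eq_single j (fun j' _ hj => by simp [hj]) (fun h => by simp at h),
    Finset.sum_eq_single k (fun k' _ hk => by simp [hk]) (fun h => by simp at h),
    Finset.sum_eq_single l (fun l' _ hl => by simp [hl]) (fun h => by simp at h)]
  simp

theorem dotp_d8 (i j : Fin 8) : dotp (d8 i) (d8 j) = if i = j then 1 else 0 := by
  unfold dotp d8
  simp only [ite_mul, one_mul, zero_mul, Finset.sum_ite_eq', Finset.mem_univ, if_true]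

theorem i6_inj (a b : Fin 6) : i6 a = i6 b ↔ a = b := by
  revert a b
  decide

/-- The block of the coupling `Y`, in the notation of `Core.lean`. -/
theorem yblock {R : Fin 8 → Fin 8 → Fin 8 → Fin 8 → ℝ} (hR : IsCurvature R)
    (hs : SecIn R 0 1) {L Y : M6} {F : ℝ} (hL : L.PosDef) (htr : L.trace = 2 * F)
    (hY : Yᵀ = -Y) :
    -(2 / 9 * (Yᵀ * L⁻¹ * Y).trace) ≤ F * R 0 1 0 1
      + 1 / 2 * mdot (Yᵀ * L⁻¹ * Y) (REm R) + 2 / 9 * mdot L (RFm R) - mdot Y (RYm R) := by
  have h := yblock_gen hR hs (d8 0) (d8 1) (b := fun a : Fin 6 => d8 (i6 a))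
    (fun a b => by simp only [dotp_d8, i6_inj]) hL hY
  simp only [ev4_d8] at h
  rw [htr, mul_div_cancel_left₀ F (two_ne_zero)] at h
  exact h

end Pool.Hopf3
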