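import Pool.Agent.Lib.MP_4a593f_gt.E83.Curv4

/-!
Planes `(e - q/a) ∧ (p + a f)` and `(e + q/a) ∧ (-p + a f)`.
-/

namespace Pool.Hopf3

open Finset

/-- the sum of the two sectional curvatures -/
theorem yplane_pair {n : ℕ} {R : Fin n → Fin n → Fin n → Fin n → ℝ} (hR : IsCurvature R)
    (hs : SecIn R 0 1) (e f p q : Fin n → ℝ) {a : ℝ} (ha : a ≠ 0) :
    0 ≤ a ^ 2 * ev4 R e f e f + ev4 R e p e p + ev4 R f q f q + (a ^ 2)⁻¹ * ev4 R p q p q
      + 2 * ev4 R e f p q + 2 * ev4 R e p f q := by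
  have h1 := (hs (e + (-a⁻¹) • q) (p + a • f)).1
  have h2 := (hs (e + a⁻¹ • q) ((-1 : ℝ) • p + a • f)).1
  rw [zero_mul] at h1 h2
  simp only [c4_add1, c4_add2, c4_add3, c4_add4, c4_smul1, c4_smul2, c4_smul3, c4_smul4] at h1 h2
  -- reduce to a few values
  have s1 : ∀ u v w z, ev4 R v u w z = - ev4 R u v w z := fun u v w z => c4_skew12 hR u v w z
  have s2 : ∀ u v w z, ev4 R u v z w = - ev4 R u v w z := fun u v w z => c4_skew34 hR u v w z
  have s3 : ∀ u v w z, ev4 R w z u v = ev4 R u v w z := fun u v w z => c4_pair hR u v w z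
  have haa : a * a⁻¹ = 1 := mul_inv_cancel₀ ha
  have hinv : (a ^ 2)⁻¹ = a⁻¹ * a⁻¹ := by rw [pow_two, mul_inv]
  rw [hinv]
  have e1 : ev4 R q p q p = ev4 R p q p q := by rw [s1 p q, s2 p q]; ring
  have e2 : ev4 R q f q f = ev4 R f q f q := by rw [s1 f q, s2 f q]; ring
  have e3 : ev4 R q p e f = - ev4 R e f p q := by rw [s1 p q, s3 e f p q]
  have e4 : ev4 R e f q p = - ev4 R e f p q := by rw [s2 e f p q]
  have e5 : ev4 R q f e p = - ev4 R e p f q := by rw [s1 f q, s3 e p f q]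
  have e6 : ev4 R e p q f = - ev4 R e p f q := by rw [s2 e p f q]
  set A := ev4 R e f e f
  set B := ev4 R e p e p
  set C := ev4 R f q f q
  set D := ev4 R p q p q
  set E := ev4 R e f p q
  set G := ev4 R e p f q
  rw [e1, e2, e3, e4, e5, e6] at h1 h2
  set b := a⁻¹
  have hb : a * b = 1 := haa
  have hb2 : a * a * (b * b) = 1 := by
    calc a * a * (b * b) = (a * b) * (a * b) := by ring
      _ = 1 := by rw [hb]; ring
  have h3 := add_nonneg h1 h2
  ring_nf at h3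
  have t1 : a ^ 2 * b ^ 2 = 1 := by rw [← hb2]; ring
  have t2 : a * b = 1 := hb
  have h4 : 0 ≤ 2 * (a ^ 2 * A + B + (a ^ 2 * b ^ 2) * C + b ^ 2 * D + 2 * (a * b) * (E + G)) := by
    refine le_of_le_of_eq h3 ?_
    ring
  rw [t1, t2] at h4
  nlinarith [h4]

end Pool.Hopf3
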